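import Pool.Agent.Helper64.Rig.Assembly

/-!
# MP_148db9_ag: a rigid nondegenerate curve which is not a rational normal curve

The homogeneous coordinates of the 14-dimensional projective space are `X (i, k)`, `i` modulo `3`,
`k < 5`; all definitions are in `Pool/Agent/Helper64/Rig/Defs.lean`.
-/

open MvPolynomial Pool.Agent.Helper64.Rig in
/-- **Existence of rigid curves (Harris' question).** For a primitive fifth root of unity `ζ` there
is a smooth irreducible nondegenerate curve in the projective space of dimension `14`, lying on the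
quintic hypersurfaces `X (i, k) ^ 5 + P (i + 1) + ζ ^ k P (i + 2) = 0`, where `P i` is the product
of the five coordinates of the block `i`, which is rigid and which is not a rational normal
curve. -/
theorem Pool.Agent.Results.MP_148db9_ag.RigidCurve.result (ζ : ℂ) (hζ : IsPrimitiveRoot ζ 5) :
    ∃ I : Ideal (MvPolynomial (Fin 3 × Fin 5) ℂ),
      (∀ (i : Fin 3) (k : Fin 5), X (i, k) ^ 5 + (∏ l : Fin 5, X (i + 1, l)) +
        C (ζ ^ (k : ℕ)) * ∏ l : Fin 5, X (i + 2, l) ∈ I) ∧
      IsSmoothCurve I ∧ Nondegenerate I ∧ Rigid I ∧ ¬ IsRationalNormal I :=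
  Pool.Agent.Helper64.Rig.final ζ hζ
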